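import Pool.Agent.H95.CF.Targets

/-!
# The number of the primitive characters with nonvanishing `L`-function (MP_347b49_nt, row PPRF)
-/

set_option autoImplicit false
set_option linter.unusedVariables false

open NumberField Module MeasureTheory Set Filter
open scoped nonZeroDivisors Real

namespace Pool.Agent.H19.CF

open Pool.Agent.H31.CN Pool.Agent.H95.CF

/-! ### General facts -/

section general

variable {ι κ G E : Type} [Fintype ι] [Fintype G] [NormedAddCommGroup E] [NormedSpace ℝ E]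

open Classical in
/-- sums over the classes as sums over the vectors -/
theorem sum_classes (o : ι → κ → ℝ) (ho : ∀ c, Summable (fun u => |o c u|))
    (P : ι → κ → Prop) (t : ι → κ → G) (F : G → E) :
    ∑ g, (∑ c, ∑' u, if P c u ∧ t c u = g then o c u else 0) • F g =
      ∑ c, ∑' u, if P c u then o c u • F (t c u) else 0 := by
  have hs : ∀ c g, Summable (fun u => if P c u ∧ t c u = g then o c u else 0) := by
    intro c g
    refine Summable.of_norm_bounded (ho c) fun u => ?_
    split_ifs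
    · exact le_rfl
    · rw [norm_zero]
      exact abs_nonneg _
  have h1 : ∀ g, (∑ c, ∑' u, if P c u ∧ t c u = g then o c u else 0) • F g =
      ∑ c, ∑' u, (if P c u ∧ t c u = g then o c u else 0) • F g := by
    intro g
    rw [Finset.sum_smul]
    exact Finset.sum_congr rfl fun c _ => ((hs c g).tsum_smul_const (F g)).symm
  rw [Finset.sum_congr rfl fun g _ => h1 g, Finset.sum_comm]
  refine Finset.sum_congr rfl fun c _ => ?_
  rw [← Summable.tsum_finsetSum fun g _ => (hs c g).smul_const (F g)]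
  refine tsum_congr fun u => ?_
  by_cases hP : P c u
  · rw [if_pos hP, Finset.sum_eq_single (t c u)]
    · rw [if_pos ⟨hP, rfl⟩]
    · intro g _ hg
      rw [if_neg fun h => hg h.2.symm, zero_smul]
    · intro h
      exact absurd (Finset.mem_univ _) h
  · rw [if_neg hP]
    refine Finset.sum_eq_zero fun g _ => ?_
    rw [if_neg fun h => hP h.1, zero_smul]

end general

/-- the kernel is bounded -/
theorem abs_kr_le (f : ℕ) (n : ℕ → ℕ) (v w : ℤ × ℤ) : |kr f n v w| ≤ 2 ^ f.primeFactors.card := by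
  classical
  unfold kr
  rw [Finset.abs_prod, ← Finset.prod_const]
  refine Finset.prod_le_prod (fun _ _ => abs_nonneg _) fun p _ => ?_
  have h1 : 1 / (n p : ℝ) ≤ 1 := by
    rcases Nat.eq_zero_or_pos (n p) with h | h
    · rw [h]
      simp
    · have h2 : (1 : ℝ) ≤ n p := by exact_mod_cast h
      rw [div_le_one (by linarith)]
      exact h2
  have h2 : 0 ≤ 1 / (n p : ℝ) := by positivity
  have h3 : (0 : ℝ) / (n p : ℝ) = 0 := zero_div _
  rw [abs_le]
  split_ifs <;> constructor <;> linarith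

/-- the dual group is finite -/
theorem dual_finite (G : Type) [CommGroup G] [Finite G] : Finite (G →* ℂˣ) := by
  have hz : NeZero (Monoid.exponent G) := ⟨Monoid.exponent_ne_zero_of_finite⟩
  have h1 : Nat.card (G →* ℂˣ) = Nat.card G :=
    CommGroup.card_monoidHom_of_hasEnoughRootsOfUnity G ℂ
  refine Nat.finite_of_card_ne_zero ?_
  rw [h1]
  exact Nat.card_pos.ne'

theorem cl_top {K : Type} [Field K] [NumberField K] {f : ℕ} {G : Type} [CommGroup G]
    {cl : Ideal (𝓞 K) → G} (h : RG K f G cl) : cl ⊤ = 1 := by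
  have h1 : Pr K f (⊤ : Ideal (𝓞 K)) := ⟨top_ne_bot, top_sup_eq _⟩
  have h2 := h.mul ⊤ ⊤ h1 h1
  have h3 : (⊤ : Ideal (𝓞 K)) * ⊤ = ⊤ := by rw [← Ideal.one_eq_top, one_mul]
  rw [h3] at h2
  exact (mul_eq_left.1 h2.symm)

open Classical in
theorem pf_PRF (hREP : T_REP) (hZRO : T_ZRO) (hGK : T_GK) (hKER : T_KER) (hOMS : T_OMS) :
    T_PRF := by
  intro D K _ _ f G _ _ cl n H hD hfin hdis hpr hf hRG hHG
  have : Fintype G := Fintype.ofFinite G
  obtain ⟨σ⟩ : Nonempty (K →+* ℂ) := inferInstance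
  obtain ⟨Q, I, α, β, b, hFB⟩ := fb_exists D K σ hD hfin hdis hpr
  refine ⟨Q, hFB.fd, hFB.inq, fun S cc hS => ?_⟩
  set o : ClassGroup (𝓞 K) → ℤ × ℤ → ℝ := fun c u => om S cc f D (Q c) u with ho
  have hom : ∀ c, Summable (fun u => |o c u|) ∧ o c 0 = 0 := fun c =>
    hOMS S cc f D (Q c) (fun m hm => (hS m hm).1) hf (by omega) (hFB.fd c)
  obtain ⟨P, hP⟩ : ∃ P : ClassGroup (𝓞 K) → ℤ × ℤ → Prop,
      ∀ c u, P c u ↔ u ≠ 0 ∧ Un f (Q c) u := ⟨fun c u => u ≠ 0 ∧ Un f (Q c) u, fun _ _ => Iff.rfl⟩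
  set t : ClassGroup (𝓞 K) → ℤ × ℤ → G := fun c u => cl (b c u) with ht
  set W : G → ℝ := fun g => ∑ c, ∑' u, if P c u ∧ t c u = g then o c u else 0 with hW
  set Kf : G → ℝ := Kg f.primeFactors H with hKf
  -- the kernel
  have hker : ∀ c c' u u', P c u → P c' u' → Kf ((t c u)⁻¹ * t c' u') =
      if c = c' then kr f n u u' else 0 := fun c c' u u' h h' =>
    hKER D K σ Q I α β b f G cl n H hD hfin hdis hFB hf hRG hHG c c' u u' ((hP c u).1 h).1
      ((hP c' u').1 h').1 ((hP c u).1 h).2 ((hP c' u').1 h').2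
  -- the first sum
  have hUn1 : Un f (Q 1) (1, 0) := by
    unfold Un
    have h1 : val (Q 1) (1, 0) = 1 := by
      rw [hFB.one]
      simp [val, pfm]
    rw [h1]
    exact isCoprime_one_left
  have hP1 : P 1 (1, 0) := (hP _ _).2 ⟨by simp, hUn1⟩
  have ht1 : t 1 (1, 0) = 1 := by
    show cl (b 1 (1, 0)) = 1
    rw [hFB.bone, Submonoid.coe_one, Ideal.one_eq_top]
    exact cl_top hRG
  have hfirst : ∑ g, W g * Kf g = ∑' v : ℤ × ℤ, om S cc f D (pfm D) v *
      kern f n (pfm D) (1, 0) v := by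
    have h1 := sum_classes o (fun c => (hom c).1) P t Kf
    simp only [smul_eq_mul] at h1
    have h2 : ∀ c, ∑' u, (if P c u then o c u * Kf (t c u) else 0) =
        if 1 = c then ∑' u, (if P c u then o c u * kr f n (1, 0) u else 0) else 0 := by
      intro c
      by_cases hc : 1 = c
      · rw [if_pos hc]
        refine tsum_congr fun u => ?_
        by_cases hu : P c u
        · have h3 := hker 1 c (1, 0) u hP1 hu
          rw [ht1, inv_one, one_mul, if_pos hc] at h3
          rw [if_pos hu, if_pos hu, h3]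
        · rw [if_neg hu, if_neg hu]
      · rw [if_neg hc]
        have h4 : ∀ u, (if P c u then o c u * Kf (t c u) else 0) = 0 := by
          intro u
          by_cases hu : P c u
          · have h3 := hker 1 c (1, 0) u hP1 hu
            rw [ht1, inv_one, one_mul, if_neg hc] at h3
            rw [if_pos hu, h3, mul_zero]
          · rw [if_neg hu]
        rw [tsum_congr h4, tsum_zero]
    have h5 : ∑ g, W g * Kf g = ∑ c, ∑' u, if P c u then o c u * Kf (t c u) else 0 := h1
    rw [h5, Finset.sum_congr rfl fun c _ => h2 c, Finset.sum_ite_eq Finset.univ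
      (1 : ClassGroup (𝓞 K)), if_pos (Finset.mem_univ _)]
    refine tsum_congr fun u => ?_
    rw [← hFB.one]
    unfold kern
    by_cases hu : P 1 u
    · rw [if_pos hu, if_pos ⟨hUn1, ((hP _ _).1 hu).2⟩]
    · rw [if_neg hu]
      by_cases hu0 : u = 0
      · have h6 : om S cc f D (Q 1) u = 0 := by
          rw [hu0]
          exact (hom 1).2
        rw [h6, zero_mul]
      · rw [if_neg fun h => hu ((hP _ _).2 ⟨hu0, h.2⟩), mul_zero]
  -- the second sum
  have hkern : ∀ c u u', (if P c u then o c u * (if P c u' then o c u' * kr f n u u' else 0)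
      else 0) = o c u * o c u' * kern f n (Q c) u u' := by
    intro c u u'
    unfold kern
    by_cases hu0 : u = 0
    · have h6 : o c u = 0 := by
        rw [hu0]
        exact (hom c).2
      rw [h6]
      simp
    · by_cases hu0' : u' = 0
      · have h6 : o c u' = 0 := by
          rw [hu0']
          exact (hom c).2
        rw [h6]
        simp
      · by_cases hu : Un f (Q c) u
        · by_cases hu' : Un f (Q c) u'
          · rw [if_pos ((hP c u).2 ⟨hu0, hu⟩), if_pos ((hP c u').2 ⟨hu0', hu'⟩),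
              if_pos ⟨hu, hu'⟩]
            ring
          · rw [if_pos ((hP c u).2 ⟨hu0, hu⟩), if_neg (fun h => hu' ((hP c u').1 h).2),
              if_neg fun h => hu' h.2, mul_zero, mul_zero]
        · rw [if_neg (fun h => hu ((hP c u).1 h).2), if_neg fun h => hu h.1, mul_zero]
  have hsecond : ∑ g, ∑ g', W g * W g' * Kf (g⁻¹ * g') =
      ∑ᶠ c : ClassGroup (𝓞 K), ∑' x : (ℤ × ℤ) × (ℤ × ℤ),
        om S cc f D (Q c) x.1 * om S cc f D (Q c) x.2 * kern f n (Q c) x.1 x.2 := by
    rw [finsum_eq_sum_of_fintype]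
    have h1 : ∀ g, ∑ g', W g * W g' * Kf (g⁻¹ * g') = W g *
        ∑ c', ∑' u', if P c' u' then o c' u' * Kf (g⁻¹ * t c' u') else 0 := by
      intro g
      have h2 := sum_classes o (fun c => (hom c).1) P t (fun g' => Kf (g⁻¹ * g'))
      simp only [smul_eq_mul] at h2
      have h3 : ∑ g', W g' * Kf (g⁻¹ * g') =
        ∑ c', ∑' u', if P c' u' then o c' u' * Kf (g⁻¹ * t c' u') else 0 := h2
      rw [← h3, Finset.mul_sum]
      exact Finset.sum_congr rfl fun g' _ => mul_assoc _ _ _
    have h4 := sum_classes o (fun c => (hom c).1) P t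
      (fun g => ∑ c', ∑' u', if P c' u' then o c' u' * Kf (g⁻¹ * t c' u') else 0)
    simp only [smul_eq_mul] at h4
    have h5 : ∑ g, ∑ g', W g * W g' * Kf (g⁻¹ * g') = ∑ c, ∑' u, if P c u then o c u *
        ∑ c', ∑' u', (if P c' u' then o c' u' * Kf ((t c u)⁻¹ * t c' u') else 0) else 0 := by
      rw [Finset.sum_congr rfl fun g _ => h1 g]
      exact h4
    rw [h5]
    refine Finset.sum_congr rfl fun c _ => ?_
    have h6 : ∀ u, P c u → ∑ c', ∑' u', (if P c' u' then o c' u' * Kf ((t c u)⁻¹ * t c' u')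
        else 0) = ∑' u', if P c u' then o c u' * kr f n u u' else 0 := by
      intro u hu
      rw [Finset.sum_eq_single c]
      · refine tsum_congr fun u' => ?_
        by_cases hu' : P c u'
        · rw [if_pos hu', if_pos hu', hker c c u u' hu hu', if_pos rfl]
        · rw [if_neg hu', if_neg hu']
      · intro c' _ hc'
        have h7 : ∀ u', (if P c' u' then o c' u' * Kf ((t c u)⁻¹ * t c' u') else 0) = 0 := by
          intro u'
          by_cases hu' : P c' u'
          · rw [if_pos hu', hker c c' u u' hu hu', if_neg (Ne.symm hc'), mul_zero]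
          · rw [if_neg hu']
        rw [tsum_congr h7, tsum_zero]
      · intro h
        exact absurd (Finset.mem_univ _) h
    have h8 : ∀ u, (if P c u then o c u * ∑ c', ∑' u', (if P c' u' then o c' u' *
        Kf ((t c u)⁻¹ * t c' u') else 0) else 0) =
        ∑' u', o c u * o c u' * kern f n (Q c) u u' := by
      intro u
      by_cases hu : P c u
      · rw [if_pos hu, h6 u hu, ← tsum_mul_left]
        refine tsum_congr fun u' => ?_
        have h9 := hkern c u u'
        rw [if_pos hu] at h9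
        exact h9
      · rw [if_neg hu]
        have h9 : ∀ u', o c u * o c u' * kern f n (Q c) u u' = 0 := by
          intro u'
          rw [← hkern, if_neg hu]
        rw [tsum_congr h9, tsum_zero]
    rw [tsum_congr h8]
    have hsum : Summable (fun x : (ℤ × ℤ) × (ℤ × ℤ) =>
        o c x.1 * o c x.2 * kern f n (Q c) x.1 x.2) := by
      have h9 : Summable (fun x : (ℤ × ℤ) × (ℤ × ℤ) => |o c x.1| * |o c x.2|) :=
        (hom c).1.mul_of_nonneg (hom c).1 (fun _ => abs_nonneg _) (fun _ => abs_nonneg _)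
      refine Summable.of_norm_bounded (h9.mul_left (2 ^ f.primeFactors.card)) fun x => ?_
      rw [Real.norm_eq_abs, abs_mul, abs_mul]
      have h10 : |kern f n (Q c) x.1 x.2| ≤ 2 ^ f.primeFactors.card := by
        unfold kern
        split_ifs
        · exact abs_kr_le _ _ _ _
        · rw [abs_zero]
          positivity
      calc |o c x.1| * |o c x.2| * |kern f n (Q c) x.1 x.2| ≤
          |o c x.1| * |o c x.2| * 2 ^ f.primeFactors.card := by gcongr
        _ = 2 ^ f.primeFactors.card * (|o c x.1| * |o c x.2|) := by ring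
    exact hsum.tsum_prod.symm
  -- the characters
  have hvan : ∀ φ : G →* ℂˣ, Prim K f cl φ → ¬ NVg K f cl φ →
      ∑ g, ((φ g : ℂˣ) : ℂ) * ((W g : ℝ) : ℂ) = 0 := by
    intro φ h1 h2
    have h3 := sum_classes o (fun c => (hom c).1) P t (fun g => ((φ g : ℂˣ) : ℂ))
    have h4 := hZRO D K σ Q I α β b f G cl φ S cc hD hfin hdis hFB hf hRG h1 hS h2
    have h5 : ∑ g, ((φ g : ℂˣ) : ℂ) * ((W g : ℝ) : ℂ) = ∑ g, W g • ((φ g : ℂˣ) : ℂ) :=
      Finset.sum_congr rfl fun g _ => by rw [Complex.real_smul, mul_comm]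
    rw [h5]
    refine h3.trans (Eq.trans ?_ h4)
    refine Finset.sum_congr rfl fun c _ => tsum_congr fun u => ?_
    show (if P c u then o c u • ((φ (t c u) : ℂˣ) : ℂ) else 0) =
      if Un f (Q c) u then ((φ (cl (b c u)) : ℂˣ) : ℂ) * ((o c u : ℝ) : ℂ) else 0
    by_cases hu0 : u = 0
    · rw [if_neg (fun h => ((hP c u).1 h).1 hu0)]
      have h6 : o c u = 0 := by
        rw [hu0]
        exact (hom c).2
      rw [h6]
      simp
    · by_cases hu : Un f (Q c) u
      · rw [if_pos ((hP c u).2 ⟨hu0, hu⟩), if_pos hu, Complex.real_smul, mul_comm]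
      · rw [if_neg (fun h => hu ((hP c u).1 h).2), if_neg hu]
  obtain ⟨hg1, hg2⟩ := hGK G f.primeFactors H W
  have hcard : (Nat.card {φ : G →* ℂˣ // (∀ p ∈ f.primeFactors, ∃ g ∈ H p, φ g ≠ 1) ∧
      ∑ g, ((φ g : ℂˣ) : ℂ) * ((W g : ℝ) : ℂ) ≠ 0} : ℝ) ≤
      (Nat.card {φ : G →* ℂˣ // Prim K f cl φ ∧ NVg K f cl φ} : ℝ) := by
    have := dual_finite G
    have h1 : Nat.card {φ : G →* ℂˣ // (∀ p ∈ f.primeFactors, ∃ g ∈ H p, φ g ≠ 1) ∧
      ∑ g, ((φ g : ℂˣ) : ℂ) * ((W g : ℝ) : ℂ) ≠ 0} ≤
      Nat.card {φ : G →* ℂˣ // Prim K f cl φ ∧ NVg K f cl φ} := by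
      refine Nat.card_le_card_of_injective (fun φ => ⟨φ.1, ?_⟩) ?_
      · have hprim : Prim K f cl φ.1 := by
          intro p hp hpf
          obtain ⟨g, hg, hg'⟩ := φ.2.1 p (Nat.mem_primeFactors.2 ⟨hp, hpf, by omega⟩)
          refine ⟨g, ?_, hg'⟩
          rw [← hHG.car p hpf hp.prime.squarefree]
          exact hg
        refine ⟨hprim, ?_⟩
        by_contra h2
        exact φ.2.2 (hvan φ.1 hprim h2)
      · intro φ φ' h2
        have h3 : φ.1 = φ'.1 := congrArg
          (fun ψ : {φ : G →* ℂˣ // Prim K f cl φ ∧ NVg K f cl φ} => ψ.1) h2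
        exact Subtype.ext h3
    exact_mod_cast h1
  have e1 : ∑ g, ∑ g', W g * W g' * Kg f.primeFactors H (g⁻¹ * g') =
      ∑ᶠ c : ClassGroup (𝓞 K), ∑' x : (ℤ × ℤ) × (ℤ × ℤ),
        om S cc f D (Q c) x.1 * om S cc f D (Q c) x.2 * kern f n (Q c) x.1 x.2 := hsecond
  have e2 : ∑ g, W g * Kg f.primeFactors H g = ∑' v : ℤ × ℤ, om S cc f D (pfm D) v *
      kern f n (pfm D) (1, 0) v := hfirst
  rw [e1] at hg1 hg2
  rw [e2] at hg2
  rw [Nat.card_eq_fintype_card]
  exact hg2.trans (mul_le_mul_of_nonneg_right hcard hg1)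

end Pool.Agent.H19.CF
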