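import Pool.Agent.H56.CF.Targets

/-!
# The ideals of small norm in a class (MP_347b49_nt, row RCLS)
-/

set_option autoImplicit false

open NumberField Module
open scoped nonZeroDivisors

namespace Pool.Agent.H19.CF

open Pool.Agent.H56.CF Pool.Agent.H91.CF Pool.Agent.H28.RC Pool.Agent.H24.Cls

/-- a set of natural numbers with small differences -/
theorem card_le_of_diff (A : Finset ℕ) (l : ℝ) (hl : 0 ≤ l)
    (h : ∀ i ∈ A, ∀ j ∈ A, i < j → (j : ℝ) - i ≤ l) : (A.card : ℝ) ≤ l + 1 := by
  rcases A.eq_empty_or_nonempty with h0 | h0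
  · rw [h0]
    simp only [Finset.card_empty, Nat.cast_zero]
    linarith
  · set i := A.min' h0 with hi
    have hiA : i ∈ A := Finset.min'_mem A h0
    have hsub : A ⊆ Finset.Icc i (i + ⌊l⌋₊) := by
      intro j hj
      have h1 : i ≤ j := Finset.min'_le A j hj
      rw [Finset.mem_Icc]
      refine ⟨h1, ?_⟩
      rcases h1.eq_or_lt with h2 | h2
      · omega
      · have h3 := h i hiA j hj h2
        have h4 : ((j - i : ℕ) : ℝ) ≤ l := by
          rw [Nat.cast_sub h1]
          exact h3
        have h5 := Nat.le_floor h4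
        omega
    have h1 := Finset.card_le_card hsub
    rw [Nat.card_Icc] at h1
    have h2 : A.card ≤ ⌊l⌋₊ + 1 := by omega
    have h3 : (A.card : ℝ) ≤ (⌊l⌋₊ : ℝ) + 1 := by exact_mod_cast h2
    have h4 := Nat.floor_le hl
    linarith

theorem pf_CLS (hG : T_GNR) (hA : T_APR) : T_CLS := by
  classical
  intro K _ _ h2 hD c
  set T := {I : (Ideal (𝓞 K))⁰ // ClassGroup.mk0 I = c ∧
      (Ideal.absNorm (I : Ideal (𝓞 K)) : ℝ) ≤ 2 * √(discr K : ℝ)} with hT
  set lam : T → ℝ := fun I =>
    Real.log (2 * √(discr K : ℝ) / Ideal.absNorm (I.1 : Ideal (𝓞 K))) with hlam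
  have hD0 : (0 : ℝ) < discr K := by exact_mod_cast hD
  have hlam0 : ∀ I : T, 0 ≤ lam I := by
    intro I
    apply Real.log_nonneg
    have h1 : (0 : ℝ) < Ideal.absNorm (I.1 : Ideal (𝓞 K)) := by
      have h3 := Ideal.absNorm_ne_zero_of_nonZeroDivisors I.1
      exact_mod_cast Nat.pos_of_ne_zero h3
    rw [le_div_iff₀ h1, one_mul]
    exact I.2.2
  have hfin : Finite T := by
    have h1 := Ideal.finite_setOfPred_absNorm_le₀ (S := 𝓞 K) ⌊2 * √(discr K : ℝ)⌋₊
    have h3 : {I : (Ideal (𝓞 K))⁰ | ClassGroup.mk0 I = c ∧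
      (Ideal.absNorm (I : Ideal (𝓞 K)) : ℝ) ≤ 2 * √(discr K : ℝ)}.Finite :=
      h1.subset fun I hI => Nat.le_floor hI.2
    exact h3
  have : Fintype T := Fintype.ofFinite T
  show Real.log (√(discr K : ℝ) - 1) / 2 ≤ ∑ᶠ I : T, (lam I + 1)
  rw [finsum_eq_sum_of_fintype]
  set L := Real.log (√(discr K : ℝ) - 1) with hL
  by_cases hL0 : L ≤ 0
  · have h1 : 0 ≤ ∑ I : T, (lam I + 1) :=
      Finset.sum_nonneg fun I _ => by linarith [hlam0 I]
    linarith
  · have hLp : 0 < L := not_le.1 hL0
    obtain ⟨J, hJ⟩ := ClassGroup.mk0_surjective c⁻¹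
    obtain ⟨σ, k, hk, hG'⟩ := hG K h2 hD c J hJ
    choose If αf hIc hIn hsl using hG'
    set M := ⌈L / 2⌉₊ with hM
    have hM1 : L / 2 ≤ M := Nat.le_ceil _
    have hM2 : (M : ℝ) < L / 2 + 1 := Nat.ceil_lt_add_one (by linarith)
    set It : ℕ → T := fun j => ⟨If j, hIc j, hIn j⟩ with hIt
    have hcard : (M : ℝ) = ∑ I : T, (((Finset.range M).filter (fun j => It j = I)).card : ℝ) := by
      have h1 := Finset.card_eq_sum_card_fiberwise (f := It) (s := Finset.range M)
        (t := Finset.univ) (fun _ _ => Finset.mem_coe.2 (Finset.mem_univ _))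
      rw [Finset.card_range] at h1
      exact_mod_cast h1
    have hle : ∀ I : T, (((Finset.range M).filter (fun j => It j = I)).card : ℝ) ≤
        lam I + 1 := by
      intro I
      rcases le_or_gt (L / 2) (lam I) with h1 | h1
      · have h3 := Finset.card_filter_le (Finset.range M) (fun j => It j = I)
        rw [Finset.card_range] at h3
        have h4 : (((Finset.range M).filter (fun j => It j = I)).card : ℝ) ≤ M := by
          exact_mod_cast h3
        linarith
      · refine card_le_of_diff _ _ (hlam0 I) fun i hi j hj hij => ?_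
        rw [Finset.mem_filter, Finset.mem_range] at hi hj
        have e1 : If i = I.1 := congrArg Subtype.val hi.2
        have e2 : If j = I.1 := congrArg Subtype.val hj.2
        have s1 := hsl i
        have s2 := hsl j
        rw [e1] at s1
        rw [e2] at s2
        have h3 := hA K h2 hD σ J I.1 k i j (αf i) (αf j) hk hij s1 s2
        rcases h3 with h3 | h3
        · exact h3
        · exfalso
          have h4 : ((j : ℝ)) ≤ M - 1 := by
            have : (j : ℝ) + 1 ≤ M := by exact_mod_cast hj.1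
            linarith
          have h5 : (0 : ℝ) ≤ i := by positivity
          have h6 : Real.log (2 * √(discr K : ℝ) / Ideal.absNorm (I.1 : Ideal (𝓞 K))) =
              lam I := rfl
          rw [h6] at h3
          linarith
    calc L / 2 ≤ M := hM1
      _ = ∑ I : T, (((Finset.range M).filter (fun j => It j = I)).card : ℝ) := hcard
      _ ≤ ∑ I : T, (lam I + 1) := Finset.sum_le_sum fun I _ => hle I

end Pool.Agent.H19.CF
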