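import Pool.Agent.H56.CF.Targets

/-!
# Sums of class numbers (MP_347b49_nt, row RSHA)
-/

set_option autoImplicit false

open NumberField Module
open scoped nonZeroDivisors

namespace Pool.Agent.H19.CF

open Pool.Agent.H56.CF Pool.Agent.H91.CF Pool.Agent.H28.RC Pool.Agent.H24.Cls

theorem pf_SHA (hM : T_MHN) (hS : T_SAN) (hQ : T_SQD) : T_SHA := by
  intro K _ _ S Y hF hY
  have hsY : 1 ≤ √Y := Real.one_le_sqrt.2 hY
  have h1 : ∀ d ∈ S, (classNumber (K d) : ℝ) ≤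
      ∑ n ∈ Finset.Icc 1 ⌊2 * √Y⌋₊, (aK (K d) n : ℝ) := by
    intro d hd
    obtain ⟨h2, h3, h4⟩ := hF d hd
    refine (hM (K d) h2).trans (Finset.sum_le_sum_of_subset_of_nonneg ?_ fun _ _ _ => by positivity)
    apply Finset.Icc_subset_Icc le_rfl
    apply Nat.floor_le_floor
    rw [h3]
    gcongr
  have h2 : ∀ n ∈ Finset.Icc 1 ⌊2 * √Y⌋₊, ∑ d ∈ S, (aK (K d) n : ℝ) ≤
      5 * Y * ((sqd n : ℝ) * (Real.log (2 * √Y / n) + 1)) := by
    intro n hn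
    obtain ⟨hn1, hn2⟩ := Finset.mem_Icc.1 hn
    have hn3 : (n : ℝ) ≤ 2 * √Y := (Nat.cast_le.2 hn2).trans (Nat.floor_le (by positivity))
    refine (hS K S Y n hF hY hn1 hn3).trans ?_
    have hn0 : (0 : ℝ) < n := by exact_mod_cast hn1
    have h5 : 0 ≤ Real.log (2 * √Y / n) := by
      apply Real.log_nonneg
      rw [le_div_iff₀ hn0]
      linarith
    have h6 : (sqd n : ℝ) ≤ (sqd n : ℝ) * (Real.log (2 * √Y / n) + 1) :=
      le_mul_of_one_le_right (by positivity) (by linarith)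
    exact mul_le_mul_of_nonneg_left h6 (by positivity)
  calc ∑ d ∈ S, (classNumber (K d) : ℝ) ≤
      ∑ d ∈ S, ∑ n ∈ Finset.Icc 1 ⌊2 * √Y⌋₊, (aK (K d) n : ℝ) := Finset.sum_le_sum h1
    _ = ∑ n ∈ Finset.Icc 1 ⌊2 * √Y⌋₊, ∑ d ∈ S, (aK (K d) n : ℝ) := Finset.sum_comm
    _ ≤ ∑ n ∈ Finset.Icc 1 ⌊2 * √Y⌋₊,
        5 * Y * ((sqd n : ℝ) * (Real.log (2 * √Y / n) + 1)) := Finset.sum_le_sum h2
    _ = 5 * Y * ∑ n ∈ Finset.Icc 1 ⌊2 * √Y⌋₊,
        (sqd n : ℝ) * (Real.log (2 * √Y / n) + 1) := by rw [Finset.mul_sum]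
    _ ≤ 5 * Y * (4 * (2 * √Y)) := by
        gcongr
        exact hQ (2 * √Y) (by positivity)
    _ = 40 * Y ^ (3 / 2 : ℝ) := by
        have h7 : Y ^ (3 / 2 : ℝ) = Y * √Y := by
          rw [Real.sqrt_eq_rpow, show (3 / 2 : ℝ) = 1 + 1 / 2 by norm_num,
            Real.rpow_add (by linarith), Real.rpow_one]
        rw [h7]
        ring

end Pool.Agent.H19.CF
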