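import Pool.Agent.H56.CF.Targets
import Pool.Agent.H24.Cls.Exist

/-!
# Units of real quadratic fields are large (MP_347b49_nt, row RUNI)
-/

set_option autoImplicit false

open NumberField Module
open scoped nonZeroDivisors

namespace Pool.Agent.H19.CF

open Pool.Agent.H56.CF Pool.Agent.H91.CF Pool.Agent.H28.RC Pool.Agent.H24.Cls

theorem pf_UNI (hE : T_EMB) : T_UNI := by
  intro K _ _ h2 hD σ u hu
  obtain ⟨⟨σ', τ', hne⟩, hN⟩ := hE K h2 hD
  obtain ⟨τ, hτ⟩ : ∃ τ : K →+* ℝ, σ ≠ τ := by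
    by_cases h : σ = σ'
    · exact ⟨τ', fun h1 => hne (h ▸ h1)⟩
    · exact ⟨σ', h⟩
  have hprod : |σ ((u : 𝓞 K) : K) * τ ((u : 𝓞 K) : K)| = 1 := by
    rw [← hN σ τ hτ (u : 𝓞 K)]
    have h1 : Ideal.span {(u : 𝓞 K)} = ⊤ := Ideal.span_singleton_eq_top.2 u.isUnit
    rw [h1, Ideal.absNorm_top, Nat.cast_one]
  have hτu : |τ ((u : 𝓞 K) : K)| ≤ 1 := by
    rw [abs_mul] at hprod
    by_contra h1
    have h1' := not_le.1 h1
    nlinarith
  obtain ⟨Q, hQ⟩ := exists_quad K h2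
  obtain ⟨a, b, hab⟩ := Q.gen (u : 𝓞 K)
  -- values at the coordinates
  have hval : ∀ (ρ : K →+* ℝ) (x y : ℤ), ρ (((x : 𝓞 K) + y * Q.w : 𝓞 K) : K) =
      x + y * ρ (Q.w : K) := by
    intro ρ x y
    push_cast
    simp
  have heqn : ∀ ρ : K →+* ℝ, ρ (Q.w : K) * ρ (Q.w : K) = Q.t * ρ (Q.w : K) - Q.n := by
    intro ρ
    have h1 := congrArg (fun z : 𝓞 K => ρ (z : K)) Q.eqn
    simpa using h1
  have hw : σ (Q.w : K) ≠ τ (Q.w : K) := by
    intro h1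
    apply hτ
    refine IsLocalization.ringHom_ext (nonZeroDivisors (𝓞 K)) (RingHom.ext fun x => ?_)
    obtain ⟨x, y, rfl⟩ := Q.gen x
    show σ (((x : 𝓞 K) + y * Q.w : 𝓞 K) : K) = τ (((x : 𝓞 K) + y * Q.w : 𝓞 K) : K)
    rw [hval, hval, h1]
  have hsum : σ (Q.w : K) + τ (Q.w : K) = Q.t := by
    have h1 := heqn σ
    have h3 := heqn τ
    have h4 : (σ (Q.w : K) - τ (Q.w : K)) * (σ (Q.w : K) + τ (Q.w : K) - Q.t) = 0 := by
      linear_combination h1 - h3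
    rcases mul_eq_zero.1 h4 with h5 | h5
    · exact absurd (sub_eq_zero.1 h5) hw
    · linarith
  have hsq : (σ (Q.w : K) - τ (Q.w : K)) ^ 2 = (discr K : ℝ) := by
    have h1 := heqn σ
    have h3 : (discr K : ℝ) = (Q.t : ℝ) ^ 2 - 4 * Q.n := by
      rw [← hQ]
      unfold Quad.D
      push_cast
      ring
    have h4 : τ (Q.w : K) = Q.t - σ (Q.w : K) := by linarith
    rw [h3, h4]
    linear_combination 4 * h1
  have hb : b ≠ 0 := by
    intro h1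
    have h3 : ∀ ρ : K →+* ℝ, ρ ((u : 𝓞 K) : K) = a := by
      intro ρ
      rw [hab, hval, h1]
      simp
    rw [h3] at hu
    rw [h3, h3, abs_mul] at hprod
    nlinarith [abs_nonneg (a : ℝ)]
  have hb1 : (1 : ℝ) ≤ |(b : ℝ)| := by
    have := Int.one_le_abs hb
    exact_mod_cast this
  have hroot : √(discr K : ℝ) = |σ (Q.w : K) - τ (Q.w : K)| := by
    rw [← hsq, Real.sqrt_sq_eq_abs]
  have hdiff : σ ((u : 𝓞 K) : K) - τ ((u : 𝓞 K) : K) = b * (σ (Q.w : K) - τ (Q.w : K)) := by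
    rw [hab, hval, hval]
    ring
  have h5 : √(discr K : ℝ) ≤ |σ ((u : 𝓞 K) : K) - τ ((u : 𝓞 K) : K)| := by
    rw [hdiff, abs_mul, hroot]
    exact le_mul_of_one_le_left (abs_nonneg _) hb1
  have h6 := abs_sub (σ ((u : 𝓞 K) : K)) (τ ((u : 𝓞 K) : K))
  linarith

end Pool.Agent.H19.CF
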